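import Pool.Agent.Lib.MP_ccffa6_gt.Asm
import Pool.Agent.Lib.MP_ccffa6_gt.BR.Main
import Pool.Agent.Lib.MP_ccffa6_gt.ELI.Main
import Pool.Agent.Lib.MP_ccffa6_gt.EX.Main
import Pool.Agent.Lib.MP_ccffa6_gt.G.Main
import Pool.Agent.Lib.MP_ccffa6_gt.P.Main
import Pool.Agent.Lib.MP_ccffa6_gt.TOP.Main
import Pool.Agent.Lib.MP_ccffa6_gt.U.Main

/-!
Every almost contact class on a closed connected manifold of dimension `2 n + 1 ≥ 5` contains a
contact form which is the convex end of an exact symplectic cobordism whose concave end has only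
closed Reeb orbits that are nonzero in real homology.
-/

open Manifold Set
open scoped ContDiff

namespace Pool.Agent.Results.MP_ccffa6_gt.CobEveryClass

open Pool.Agent.Lib.MP_ccffa6_gt

/-- `e` is a smooth injective immersion and `α` is the pull-back of `β` under `e`. -/
structure Pull {H : Type} [NormedAddCommGroup H] [NormedSpace ℝ H] {M : Type} [TopologicalSpace M]
    [ChartedSpace H M] {F : Type} [NormedAddCommGroup F] [NormedSpace ℝ F]
    (α : Covec (H := H) M) (e : M → F) (β : Form1 F) : Prop where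
  sm : ContMDiff 𝓘(ℝ, H) 𝓘(ℝ, F) ∞ e
  inj : Function.Injective e
  imm : ∀ x, Function.Injective (mfderiv 𝓘(ℝ, H) 𝓘(ℝ, F) e x)
  pull : ∀ x v, α x v = β (e x) (mfderiv 𝓘(ℝ, H) 𝓘(ℝ, F) e x v)

theorem result (n : ℕ) (hn : 2 ≤ n) (M : Type) [TopologicalSpace M] [T2Space M] [CompactSpace M]
    [ConnectedSpace M] [ChartedSpace (EuclideanSpace ℝ (Fin (2 * n + 1))) M]
    [IsManifold (𝓡 (2 * n + 1)) ∞ M] (a : Covec (H := EuclideanSpace ℝ (Fin (2 * n + 1))) M)
    (J : Endo (H := EuclideanSpace ℝ (Fin (2 * n + 1))) M) (h : AlmostContact a J) :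
    ∃ α : Covec (H := EuclideanSpace ℝ (Fin (2 * n + 1))) M,
      IsContactForm α ∧ InClass α a J ∧
      ∃ (F : Type) (_ : NormedAddCommGroup F) (_ : NormedSpace ℝ F) (_ : FiniteDimensional ℝ F)
        (e : M → F) (β γ : Form1 F) (N : Set F) (W : Set (F × ℝ)) (lam : Form1 (F × ℝ)),
        Pull α e β ∧ XCob n W lam N γ (range e) β ∧ Hyp N γ := by
  have hU : UStmt n := U_main hn (f0_of (K_main n) (P_main G_main n) (EX_main n)
    (TE_main (eli_of_eliK (ELI_main hn)))) (ELI_main hn)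
  obtain ⟨L, e, h1, h2, h3⟩ := exists_embedding_euclidean_of_compact (I := 𝓡 (2 * n + 1)) (M := M)
  have he : br_Emb (Rd (2 * n + 1)) e := ⟨h1, h2.isInducing, h3⟩
  obtain ⟨Ω, hΩ, h4⟩ := br_gen (br_sq L) he h2.injective h
  obtain ⟨β, b1, ⟨F, _, _, _, W, lam, N, γ, S, β₁, φ, ψ, hX, hH, hD, hE⟩, b2⟩ :=
    hU _ _ Ω he.closed (isConnected_range h1.continuous) hΩ
  have d : ∀ x, mfderiv (𝓡 (2 * n + 1)) 𝓘(ℝ, F) (φ ∘ e) x =
      (fderiv ℝ φ (e x)).comp (br_D (Rd (2 * n + 1)) e x) := fun x => by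
    rw [← mfderiv_eq_fderiv]
    exact mfderiv_comp x (hD.smφ.contMDiff.mdifferentiableAt (by simp))
      (h1.mdifferentiableAt (by simp))
  have t : ∀ x v, br_D (Rd (2 * n + 1)) e x v ∈ Tan (range e) (e x) := fun x v =>
    (he.mem_tan x _).2 ⟨v, rfl⟩
  refine ⟨_, (h4 β b1.sm b2).1, (h4 β b1.sm b2).2, F, inferInstance, inferInstance, inferInstance,
    φ ∘ e, β₁, γ, N, W, lam, ⟨hD.smφ.contMDiff.comp h1, fun x y hxy => h2.injective ?_,
    fun x u v huv => he.imm x ?_, fun x v => ?_⟩, ?_, hH⟩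
  · rw [← hD.left _ (mem_range_self x), ← hD.left _ (mem_range_self y)]
    exact congrArg ψ hxy
  · rw [d] at huv
    exact (hD.tan_bijOn (mem_range_self x)).injOn (t x u) (t x v) huv
  · rw [d]
    exact hE _ (mem_range_self x) _ (t x v)
  · rw [range_comp, hD.image_eq]
    exact hX

end Pool.Agent.Results.MP_ccffa6_gt.CobEveryClass
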