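import Pool.Agent.Lib.MP_ccffa6_gt.Final
import Pool.Agent.Lib.MP_ccffa6_gt.BallEx

/-!
Every almost contact class on a closed connected manifold of dimension `2 n + 1 ≥ 5` contains a
tight contact structure: it contains no overtwisted disc, and one fixed contact structure on
`ℝ^(2n+1)` does not embed in it.
-/

open Manifold
open scoped ContDiff

namespace Pool.Agent.Results.MP_ccffa6_gt.TightEveryClass

open Pool.Agent.Lib.MP_ccffa6_gt

theorem result (n : ℕ) (hn : 2 ≤ n) :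
    ∃ β : Covec (H := EuclideanSpace ℝ (Fin (2 * n + 1))) (EuclideanSpace ℝ (Fin (2 * n + 1))),
      IsContactForm β ∧
      ∀ (M : Type) [TopologicalSpace M] [T2Space M] [CompactSpace M] [ConnectedSpace M]
        [ChartedSpace (EuclideanSpace ℝ (Fin (2 * n + 1))) M] [IsManifold (𝓡 (2 * n + 1)) ∞ M]
        (a : Covec (H := EuclideanSpace ℝ (Fin (2 * n + 1))) M)
        (J : Endo (H := EuclideanSpace ℝ (Fin (2 * n + 1))) M), AlmostContact a J →
        ∃ α : Covec (H := EuclideanSpace ℝ (Fin (2 * n + 1))) M,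
          IsContactForm α ∧ InClass α a J ∧ ¬ HasDisc n (CMapM α) ∧
          ¬ ∃ f : EuclideanSpace ℝ (Fin (2 * n + 1)) → M,
            Function.Injective f ∧ CMapM α Set.univ β f := by
  obtain ⟨β, h1, h2⟩ := ball_witness (n := n) (by omega)
    (ContinuousLinearEquiv.ofFinrankEq (bx_rank (by omega)))
  refine ⟨β, h1, fun M _ _ _ _ _ _ a J h => ?_⟩
  obtain ⟨α, k1, k2, k3⟩ := final_main hn M a J h
  exact ⟨α, k1, k2, k3, fun ⟨f, hf, hc⟩ => k3 (h2 M α f hf hc)⟩

/-- Sanity check: the predicate `HasDisc` is satisfiable. Some contact form on an open subset of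
the model space contains such a disc. -/
theorem hasDisc_example (n : ℕ) (hn : 1 ≤ n) :
    ∃ (U : Set (Mod n)) (α : Mod n → Mod n →L[ℝ] ℝ), IsOpen U ∧ ContDiffOn ℝ ∞ α U ∧
      (∀ p ∈ U, α p ≠ 0 ∧ ∀ u, α p u = 0 →
        (∀ v, α p v = 0 → fderiv ℝ α p u v - fderiv ℝ α p v u = 0) → u = 0) ∧
      HasDisc n fun V lam f => CMapM (H := Mod n) (M := Mod n) α V lam f ∧ Set.MapsTo f V U := by
  obtain ⟨U, α, h1, h2, h3, h4⟩ := hasDisc_witness hn
  refine ⟨U, α, h1, h2, h3, h4.map id Set.univ (Set.injOn_id _) (fun _ _ _ _ => Set.mapsTo_univ _ _)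
    fun V lam f h => ⟨⟨h.op, contMDiffOn_iff_contDiffOn.2 h.sm, fun y hy => ?_, fun y hy v => ?_⟩,
      h.map⟩⟩
  · rw [mfderiv_eq_fderiv]; exact h.inj y hy
  · rw [mfderiv_eq_fderiv]; exact h.ker y hy v

end Pool.Agent.Results.MP_ccffa6_gt.TightEveryClass
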